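import Pool.Agent.Q296.PolyaFreq.Main

/-!
# The half-factor of the Gaussian density is not a Pólya frequency function

For `g z = (2/π)^{1/4} exp (π²/12 + z - ∫_0^{e^z} log(1+t)/t dt)` we show that some minor
`det [g (x_i - y_j)]` of size `12` with increasing `x_i`, `y_j` is negative. Hence
`g` is not in `PF_12`, and not in `PF_∞`.

Proof: if all `12 × 12` minors were nonnegative, the confluent minor
`det [(-1)^j f^{(i+j)}(z₀)]` would be nonnegative for every exponential tilt `f` of `g` and every
`z₀`; for `z₀ = log (10/3)` and the tilt with `f'(z₀) = 0` the quotients `f^{(n)}(z₀) / f(z₀)` are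
rational and the determinant is negative by an integer certificate.
-/

set_option autoImplicit false

namespace Pool.Agent.Results.MP_41e59c_pr.NotPF12

open Pool.Agent.Q296.PolyaFreq

/-- The function of the problem:
`g z = (2/π)^{1/4} exp (π²/12 + z - ∫_0^{e^z} log(1+t)/t dt)`. -/
noncomputable def gauss (z : ℝ) : ℝ :=
  (2 / Real.pi) ^ (1 / 4 : ℝ) *
    Real.exp (Real.pi ^ 2 / 12 + z - ∫ t in (0 : ℝ)..Real.exp z, Real.log (1 + t) / t)

/-- Pólya frequency functions of order `k`: measurable, nonnegative, and all the determinants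
`det [f (x_i - y_j)]` of size `n ≤ k` with `x_1 < ... < x_n`, `y_1 < ... < y_n` are
nonnegative. -/
def IsPF (k : ℕ) (f : ℝ → ℝ) : Prop :=
  Measurable f ∧ (∀ z, 0 ≤ f z) ∧
    ∀ n ≤ k, ∀ x y : Fin n → ℝ, StrictMono x → StrictMono y →
      0 ≤ (Matrix.of fun i j => f (x i - y j)).det

/-- Pólya frequency functions of infinite order. -/
def IsPFInfty (f : ℝ → ℝ) : Prop := ∀ k : ℕ, IsPF k f

/-- **The function `g` is not a Pólya frequency function of infinite order**, not even of order
`12`: it has a negative minor of size `12`. -/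
theorem result :
    ¬ IsPFInfty gauss ∧ ¬ IsPF 12 gauss ∧
      ∃ x y : Fin 12 → ℝ, StrictMono x ∧ StrictMono y ∧
        (Matrix.of fun i j => gauss (x i - y j)).det < 0 := by
  have h : ∃ x y : Fin 12 → ℝ, StrictMono x ∧ StrictMono y ∧
      (Matrix.of fun i j => gauss (x i - y j)).det < 0 := exists_neg_minor
  have h2 : ¬ IsPF 12 gauss := by
    intro hpf
    obtain ⟨x, y, hx, hy, hneg⟩ := h
    exact absurd (hpf.2.2 12 le_rfl x y hx hy) (not_le.2 hneg)
  exact ⟨fun hinf => h2 (hinf 12), h2, h⟩

end Pool.Agent.Results.MP_41e59c_pr.NotPF12
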